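import Pool.Agent.H700R2.JacMod

/-!
# A polynomial whose set of non-solvability is not a finite union of basic open sets

Subrings of `ℚ` are identified with points of `2^P`, `P` the set of primes. For a polynomial `f`
let `A f` be the set of subrings in which `f` has a solution and `C f` the interior of its
complement. We give a polynomial `f` in eight variables such that `C f` is not closed, hence not a
finite union of basic open sets.

The variables are `s, t, w, r, u, v, α, β` and the equations are `t² = 1 - 2s² - 4s⁴` (a curve of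
genus one whose rational points form a group of rank one, generated by `P0 = (1/2, 1/2)` and
`T0 = (0, -1)`), `(1 + 4s⁴) w = 1`, `s r = u² + v²`, `α u + β v = 1`. A solution over `ℤ[1/p : p ∈ W]`
coming from `n P0` or `n P0 + T0` excludes from the complement of `W` the primes at which `n P0` or
`2 n P0` reduces to infinity and the primes `≡ 3 mod 4` at which `n P0` reduces to the neutral
element. Let `P j` be an odd prime at which `2^(j+1) P0` reduces to infinity and, for infinitely many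
`k`, `q k ≡ 3 mod 4` a prime dividing the numerator of `t (2^k P0)`. The complement of
`{P 0, …, P (k-1), q k}` is in `C f`, and these sets converge to the complement of `{P j : j}`, which
is a limit of points of `A f`.
-/

set_option autoImplicit false
set_option linter.unusedSectionVars false

namespace Pool.Agent.Results.MP_d0a72d_lc.NotFiniteUnion

open MvPolynomial Pool.Agent.H700R2.Jac

/-! ### Definitions -/

/-- The subring `ℤ[1/p : p ∈ W]` of `ℚ`. The set `W` of primes is given by its characteristic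
function. -/
def R (W : Nat.Primes → Bool) : Subring ℚ :=
  Subring.closure {x : ℚ | ∃ p : Nat.Primes, W p = true ∧ x = ((p : ℕ) : ℚ)⁻¹}

/-- The set of the `W` such that `f` has a solution in `ℤ[1/p : p ∈ W]`. -/
def A {n : ℕ} (f : MvPolynomial (Fin n) ℤ) : Set (Nat.Primes → Bool) :=
  {W | ∃ a : Fin n → R W, aeval a f = 0}

/-- The interior of the complement of `A f` in the product topology (`Bool` is discrete). -/
def C {n : ℕ} (f : MvPolynomial (Fin n) ℤ) : Set (Nat.Primes → Bool) := interior (A f)ᶜ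

/-- The basic set of all `W` containing `F` and disjoint from `G`. -/
def U (F G : Finset Nat.Primes) : Set (Nat.Primes → Bool) :=
  {W | (∀ p ∈ F, W p = true) ∧ ∀ p ∈ G, W p = false}

/-! ### The subrings -/

instance (p : Nat.Primes) : Fact (Nat.Prime (p : ℕ)) := ⟨p.2⟩

theorem norm_le_of_mem {W : Nat.Primes → Bool} {x : ℚ} (hx : x ∈ R W) {p : Nat.Primes}
    (hp : W p = false) : padicNorm p x ≤ 1 := by
  induction hx using Subring.closure_induction with
  | mem x hx =>
    obtain ⟨q, hq, rfl⟩ := hx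
    have hne : ¬ (p : ℕ) ∣ (q : ℕ) := by
      intro h
      have h1 := (Nat.prime_dvd_prime_iff_eq p.2 q.2).1 h
      have h2 : p = q := Subtype.ext h1
      rw [h2, hq] at hp
      exact absurd hp (by decide)
    have h1 : padicNorm p ((q : ℕ) : ℚ) = 1 := (padicNorm.nat_eq_one_iff _).2 hne
    have h2 : padicNorm p (((q : ℕ) : ℚ)⁻¹) = 1 := by
      rw [← one_div, padicNorm.div, padicNorm.one, h1, div_one]
    exact h2.le
  | zero => rw [padicNorm.zero]; exact zero_le_one
  | one => rw [padicNorm.one]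
  | add x y _ _ hx hy => exact nm_add_le hx hy
  | neg x _ hx => rw [padicNorm.neg]; exact hx
  | mul x y _ _ hx hy => exact nm_mul_le hx hy

theorem inv_mem {W : Nat.Primes → Bool} (n : ℕ) (hn : n ≠ 0)
    (h : ∀ p : Nat.Primes, (p : ℕ) ∣ n → W p = true) : ((n : ℚ))⁻¹ ∈ R W := by
  induction n using Nat.strong_induction_on with
  | _ n ih =>
  by_cases h1 : n = 1
  · subst h1
    rw [Nat.cast_one, inv_one]
    exact Subring.one_mem _
  · have hq := Nat.minFac_prime h1
    obtain ⟨k, hk⟩ := Nat.minFac_dvd n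
    have hk0 : k ≠ 0 := by rintro rfl; omega
    have hlt : k < n := by
      rw [hk]
      have := hq.two_le
      have h8 : 2 * k ≤ n.minFac * k := Nat.mul_le_mul_right _ this
      omega
    have h2 := ih k hlt hk0 (fun p hp => h p (hp.trans ⟨n.minFac, by rw [mul_comm]; exact hk⟩))
    have h3 : ((n.minFac : ℚ))⁻¹ ∈ R W :=
      Subring.subset_closure ⟨⟨n.minFac, hq⟩, h _ (Nat.minFac_dvd n), rfl⟩
    have h4 : ((n : ℚ))⁻¹ = ((n.minFac : ℚ))⁻¹ * ((k : ℚ))⁻¹ := by
      conv_lhs => rw [hk]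
      push_cast
      rw [mul_inv]
    rw [h4]
    exact Subring.mul_mem _ h3 h2

theorem mem_of_norm {W : Nat.Primes → Bool} {x : ℚ}
    (h : ∀ p : Nat.Primes, W p = false → padicNorm p x ≤ 1) : x ∈ R W := by
  have h1 : ((x.den : ℚ))⁻¹ ∈ R W := by
    apply inv_mem _ x.den_nz
    intro p hp
    by_contra hcon
    have := h p (by simpa using hcon)
    rw [nm_le_one_iff] at this
    exact this hp
  have h2 : ((x.num : ℤ) : ℚ) ∈ R W := intCast_mem (R W) x.num
  have h3 : x = (x.num : ℚ) * ((x.den : ℚ))⁻¹ := by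
    rw [← div_eq_mul_inv]; exact (Rat.num_div_den x).symm
  rw [h3]
  exact Subring.mul_mem _ h2 h1

/-! ### The polynomial -/

/-- the polynomial -/
noncomputable def poly : MvPolynomial (Fin 8) ℤ :=
  (X 1 ^ 2 - 1 + 2 * X 0 ^ 2 + 4 * X 0 ^ 4) ^ 2 + ((1 + 4 * X 0 ^ 4) * X 2 - 1) ^ 2 +
    (X 0 * X 3 - X 4 ^ 2 - X 5 ^ 2) ^ 2 + (X 6 * X 4 + X 7 * X 5 - 1) ^ 2

theorem aeval_poly {S : Type} [CommRing S] (x : Fin 8 → S) : aeval x poly =
    (x 1 ^ 2 - 1 + 2 * x 0 ^ 2 + 4 * x 0 ^ 4) ^ 2 + ((1 + 4 * x 0 ^ 4) * x 2 - 1) ^ 2 +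
    (x 0 * x 3 - x 4 ^ 2 - x 5 ^ 2) ^ 2 + (x 6 * x 4 + x 7 * x 5 - 1) ^ 2 := by
  unfold poly
  simp only [map_add, map_mul, map_pow, map_sub, map_one, map_ofNat, aeval_X]

theorem mem_A_iff (W : Nat.Primes → Bool) : W ∈ A poly ↔ ∃ x : Fin 8 → ℚ,
    (∀ i, ∀ p : Nat.Primes, W p = false → padicNorm p (x i) ≤ 1) ∧
    x 1 ^ 2 = 1 - 2 * x 0 ^ 2 - 4 * x 0 ^ 4 ∧ (1 + 4 * x 0 ^ 4) * x 2 = 1 ∧
    x 0 * x 3 = x 4 ^ 2 + x 5 ^ 2 ∧ x 6 * x 4 + x 7 * x 5 = 1 := by
  constructor
  · rintro ⟨a, ha⟩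
    refine ⟨fun i => (a i : ℚ), fun i p hp => norm_le_of_mem (a i).2 hp, ?_⟩
    rw [aeval_poly] at ha
    have h := congrArg (R W).subtype ha
    simp only [map_add, map_mul, map_pow, map_sub, map_one, map_ofNat, map_zero,
      Subring.subtype_apply] at h
    show ((a 1 : R W) : ℚ) ^ 2 = 1 - 2 * ((a 0 : R W) : ℚ) ^ 2 - 4 * ((a 0 : R W) : ℚ) ^ 4 ∧
      (1 + 4 * ((a 0 : R W) : ℚ) ^ 4) * ((a 2 : R W) : ℚ) = 1 ∧
      ((a 0 : R W) : ℚ) * ((a 3 : R W) : ℚ) = ((a 4 : R W) : ℚ) ^ 2 + ((a 5 : R W) : ℚ) ^ 2 ∧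
      ((a 6 : R W) : ℚ) * ((a 4 : R W) : ℚ) + ((a 7 : R W) : ℚ) * ((a 5 : R W) : ℚ) = 1
    generalize ((a 0 : R W) : ℚ) = x0 at *
    generalize ((a 1 : R W) : ℚ) = x1 at *
    generalize ((a 2 : R W) : ℚ) = x2 at *
    generalize ((a 3 : R W) : ℚ) = x3 at *
    generalize ((a 4 : R W) : ℚ) = x4 at *
    generalize ((a 5 : R W) : ℚ) = x5 at *
    generalize ((a 6 : R W) : ℚ) = x6 at *
    generalize ((a 7 : R W) : ℚ) = x7 at *
    have q1 := sq_nonneg (x1 ^ 2 - 1 + 2 * x0 ^ 2 + 4 * x0 ^ 4)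
    have q2 := sq_nonneg ((1 + 4 * x0 ^ 4) * x2 - 1)
    have q3 := sq_nonneg (x0 * x3 - x4 ^ 2 - x5 ^ 2)
    have q4 := sq_nonneg (x6 * x4 + x7 * x5 - 1)
    have e1 : (x1 ^ 2 - 1 + 2 * x0 ^ 2 + 4 * x0 ^ 4) ^ 2 = 0 := by linarith
    have e2 : ((1 + 4 * x0 ^ 4) * x2 - 1) ^ 2 = 0 := by linarith
    have e3 : (x0 * x3 - x4 ^ 2 - x5 ^ 2) ^ 2 = 0 := by linarith
    have e4 : (x6 * x4 + x7 * x5 - 1) ^ 2 = 0 := by linarith
    have f1 := (pow_eq_zero_iff (two_ne_zero)).1 e1
    have f2 := (pow_eq_zero_iff (two_ne_zero)).1 e2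
    have f3 := (pow_eq_zero_iff (two_ne_zero)).1 e3
    have f4 := (pow_eq_zero_iff (two_ne_zero)).1 e4
    exact ⟨by linarith, by linarith, by linarith, by linarith⟩
  · rintro ⟨x, hx, h1, h2, h3, h4⟩
    refine ⟨fun i => ⟨x i, mem_of_norm (hx i)⟩, ?_⟩
    rw [aeval_poly]
    have inj : Function.Injective (R W).subtype := Subtype.coe_injective
    apply inj
    simp only [map_add, map_mul, map_pow, map_sub, map_one, map_ofNat, map_zero,
      Subring.subtype_apply]
    have e1 : x 1 ^ 2 - 1 + 2 * x 0 ^ 2 + 4 * x 0 ^ 4 = 0 := by rw [h1]; ring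
    have e2 : (1 + 4 * x 0 ^ 4) * x 2 - 1 = 0 := by rw [h2]; ring
    have e3 : x 0 * x 3 - x 4 ^ 2 - x 5 ^ 2 = 0 := by rw [h3]; ring
    have e4 : x 6 * x 4 + x 7 * x 5 - 1 = 0 := by rw [h4]; ring
    rw [e1, e2, e3, e4]; norm_num

/-! ### The primes -/

theorem exists_P (j : ℕ) : ∃ p : Nat.Primes, (p : ℕ) ≠ 2 ∧ Big p (E (j + 1)) ∧ (p : ℕ) % 4 ≠ 3 := by
  obtain ⟨p, hp, hp2, hb⟩ := (E_good j).exists_big
  have : Fact p.Prime := ⟨hp⟩
  refine ⟨⟨p, hp⟩, hp2, hb, ?_⟩
  rw [E_succ] at hb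
  exact big_mod_four hp2 hb

/-- an odd prime at which `2^(j+1) P0` reduces to infinity -/
noncomputable def P (j : ℕ) : Nat.Primes := (exists_P j).choose

theorem P_ne (j : ℕ) : (P j : ℕ) ≠ 2 := (exists_P j).choose_spec.1
theorem P_big (j : ℕ) : Big (P j) (E (j + 1)) := (exists_P j).choose_spec.2.1
theorem P_mod (j : ℕ) : (P j : ℕ) % 4 ≠ 3 := (exists_P j).choose_spec.2.2

theorem exists_mult' {Q : Pt} (h0 : Q.s ≠ 0) : ∃ e m : ℕ, Odd m ∧
    (Q.s = (m • E e).s ∨ Q.s = -(m • E e).s) := by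
  obtain ⟨n, hn⟩ := mordell_weil Q
  have hs : Q.s = (n • P0).s ∨ Q.s = -(n • P0).s := by
    rcases hn with h | h
    · left; rw [h]
    · right; rw [h, (add_T0 _).1]
  have hn0 : n ≠ 0 := by
    rintro rfl
    rw [zero_smul, zero_s, neg_zero, or_self] at hs
    exact h0 hs
  have hs' : Q.s = (n.natAbs • P0).s ∨ Q.s = -(n.natAbs • P0).s := by
    rcases Int.natAbs_eq n with h | h
    · have e2 : n • P0 = n.natAbs • P0 := by
        conv_lhs => rw [h]
        rw [natCast_zsmul]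
      rwa [e2] at hs
    · have e2 : n • P0 = -(n.natAbs • P0) := by
        conv_lhs => rw [h]
        rw [neg_smul, natCast_zsmul]
      rw [e2, neg_s, neg_neg] at hs
      exact hs.symm
  obtain ⟨e, m, h2, h3⟩ := Nat.exists_eq_pow_mul_and_not_dvd (Int.natAbs_ne_zero.2 hn0) 2
    (by norm_num)
  refine ⟨e, m, ?_, ?_⟩
  · rw [← Nat.not_even_iff_odd, even_iff_two_dvd]; exact h2
  · have e3 : m • E e = n.natAbs • P0 := by
      unfold E
      rw [h3, ← mul_smul]; congr 1; ring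
    rw [e3]; exact hs'

/-! ### Non-solvability -/

theorem no_sol {k : ℕ} (hk : 1 ≤ k) {q : Nat.Primes} (hq3 : (q : ℕ) % 4 = 3)
    (hqt : padicNorm q (E k).t < 1) {W : Nat.Primes → Bool} (hWP : ∀ j < k, W (P j) = false)
    (hWq : W q = false) : W ∉ A poly := by
  rw [mem_A_iff]
  rintro ⟨x, hx, h1, h2, h3, h4⟩
  have hs0 : x 0 ≠ 0 := by
    intro h
    rw [h, zero_mul] at h3
    have h5 : x 4 = 0 := by nlinarith [sq_nonneg (x 4), sq_nonneg (x 5)]
    have h6 : x 5 = 0 := by nlinarith [sq_nonneg (x 4), sq_nonneg (x 5)]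
    rw [h5, h6] at h4
    norm_num at h4
  obtain ⟨e, m, hm, hs⟩ := exists_mult' (Q := ⟨x 0, x 1, h1⟩) hs0
  change x 0 = (m • E e).s ∨ x 0 = -(m • E e).s at hs
  rcases Nat.eq_zero_or_pos e with he | he
  · -- an odd multiple
    subst he
    have hb : Big (P 0) (E (0 + 1)) := P_big 0
    have hb' : Big (P 0) (m • E 0 + m • E 0) := by
      have : m • E 0 + m • E 0 = m • E (0 + 1) := by rw [E_succ, smul_add]
      rw [this]
      exact hb.odd_nsmul (P_ne 0) hm
    have h5 := (one_add_of_big (P_ne 0) hb').2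
    have h6 : (m • E 0).s ^ 4 = x 0 ^ 4 := by
      rcases hs with h | h
      · rw [h]
      · rw [h]; ring
    rw [h6] at h5
    have h7 := hx 2 (P 0) (hWP 0 hk)
    have h8 : padicNorm (P 0) (x 2 * (1 + 4 * x 0 ^ 4)) < 1 := nm_mul_lt h7 h5
    rw [mul_comm, h2, padicNorm.one] at h8
    exact lt_irrefl _ h8
  rcases Nat.lt_or_ge k e with hke | hke
  · -- multiples of a high power of two
    have hker : Ker q (m • E e) := by
      apply Ker.nsmul
      apply E_ker_mono (k := k + 1) (by omega)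
      rw [E_succ]
      exact ker_of_t hq3 hqt
    have hker' : padicNorm q (x 0) < 1 := by
      have h5 : padicNorm q (m • E e).s < 1 := hker
      rcases hs with h | h
      · rw [h]; exact h5
      · rw [h, padicNorm.neg]; exact h5
    have h5 : padicNorm q (x 4 ^ 2 + x 5 ^ 2) < 1 := by
      rw [← h3, mul_comm]
      exact nm_mul_lt (hx 3 q hWq) hker'
    have h6 : padicNorm q (x 4) = 1 ∨ padicNorm q (x 5) = 1 := by
      by_contra hcon
      push Not at hcon
      have h7 := lt_of_le_of_ne (hx 4 q hWq) hcon.1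
      have h8 := lt_of_le_of_ne (hx 5 q hWq) hcon.2
      have h9 : padicNorm q (x 6 * x 4 + x 7 * x 5) < 1 :=
        nm_add_lt (nm_mul_lt (hx 6 q hWq) h7) (nm_mul_lt (hx 7 q hWq) h8)
      rw [h4, padicNorm.one] at h9
      exact lt_irrefl _ h9
    rcases h6 with h6 | h6
    · rw [add_comm] at h5
      exact rat_mod_four (hx 5 q hWq) h6 h5 hq3
    · exact rat_mod_four (hx 4 q hWq) h6 h5 hq3
  · -- the remaining multiples
    obtain ⟨j, rfl⟩ : ∃ j, e = j + 1 := ⟨e - 1, by omega⟩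
    have hb : Big (P j) (m • E (j + 1)) := (P_big j).odd_nsmul (P_ne j) hm
    have h5 : 1 < padicNorm (P j) (m • E (j + 1)).s := hb
    have h6 := hx 0 (P j) (hWP j (by omega))
    rcases hs with h | h
    · rw [h] at h6; linarith
    · rw [h, padicNorm.neg] at h6; linarith

/-! ### Solvability -/

theorem exists_sqrt (F : Finset Nat.Primes) (hF : ∀ p ∈ F, (p : ℕ) ≠ 2 ∧ (p : ℕ) % 4 ≠ 3) (m : ℕ) :
    ∃ u : ℤ, ∀ p ∈ F, (((p : ℕ) ^ (m + 1) : ℕ) : ℤ) ∣ u ^ 2 + 1 := by
  have h1 : Odd (∏ p ∈ F, (p : ℕ)) ∧ IsSquare (-1 : ZMod (∏ p ∈ F, (p : ℕ))) := by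
    clear m
    induction F using Finset.induction_on with
    | empty =>
      rw [Finset.prod_empty]
      exact ⟨odd_one, ⟨0, Subsingleton.elim _ _⟩⟩
    | insert p F hp ih =>
      obtain ⟨h2, h3⟩ := ih (fun q hq => hF q (Finset.mem_insert_of_mem hq))
      obtain ⟨h4, h5⟩ := hF p (Finset.mem_insert_self _ _)
      rw [Finset.prod_insert hp]
      refine ⟨(p.2.odd_of_ne_two h4).mul h2, ?_⟩
      apply ZMod.isSquare_neg_one_mul
      · apply Nat.Coprime.prod_right
        intro q hq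
        rw [Nat.coprime_primes p.2 q.2]
        intro h
        exact hp (by rwa [Subtype.ext h])
      · exact ZMod.exists_sq_eq_neg_one_iff.2 h5
      · exact h3
  obtain ⟨hodd, hsq⟩ := h1
  generalize hN : ∏ p ∈ F, (p : ℕ) = N at hodd hsq
  obtain ⟨y, hy⟩ := hsq
  obtain ⟨z, hz⟩ := ZMod.intCast_surjective y
  have h2 : ((N : ℕ) : ℤ) ∣ z ^ 2 - (-1) := by
    rw [← ZMod.intCast_zmod_eq_zero_iff_dvd]
    push_cast
    rw [hz, hy]; ring
  have h3 := dvd_sub_pow_of_dvd_sub h2 m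
  have hodd' : Odd (N ^ m) := hodd.pow
  rw [hodd'.neg_one_pow] at h3
  refine ⟨z ^ (N ^ m), fun p hp => ?_⟩
  have h4 : (p : ℕ) ∣ N := by rw [← hN]; exact Finset.dvd_prod_of_mem (fun p : Nat.Primes => (p : ℕ)) hp
  have h5 : (((p : ℕ) ^ (m + 1) : ℕ) : ℤ) ∣ ((N : ℕ) : ℤ) ^ (m + 1) := by
    rw [← Nat.cast_pow]
    exact_mod_cast pow_dvd_pow_of_dvd h4 (m + 1)
  have h6 : (z ^ (N ^ m)) ^ 2 + 1 = (z ^ 2) ^ (N ^ m) - (-1) := by
    rw [← pow_mul, ← pow_mul, mul_comm]; ring
  rw [h6]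
  exact h5.trans h3

theorem E_ker_P {j k : ℕ} (h : j < k) : Ker (P j) (E (k + 1)) := by
  apply E_ker_mono (k := j + 2) (by omega)
  rw [E_succ]
  exact (P_big j).double (P_ne j)

theorem sol (k : ℕ) {W : Nat.Primes → Bool} (hW : ∀ p, W p = false → ∃ j < k, P j = p) :
    W ∈ A poly := by
  rw [mem_A_iff]
  set Q : Pt := E (k + 1) with hQ
  have hs0 : Q.s ≠ 0 := (E_good k).2
  set M : ℤ := Q.s.num with hM
  have hM0 : M ≠ 0 := by rw [hM, Ne, Rat.num_eq_zero]; exact hs0
  obtain ⟨u, hu⟩ := exists_sqrt ((Finset.range k).image P) (by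
    intro p hp
    obtain ⟨j, _, rfl⟩ := Finset.mem_image.1 hp
    exact ⟨P_ne j, P_mod j⟩) M.natAbs
  have hden : (1 + 4 * Q.s ^ 4) ≠ 0 := by positivity
  refine ⟨![Q.s, Q.t, 1 / (1 + 4 * Q.s ^ 4), ((u ^ 2 + 1 : ℤ) : ℚ) / Q.s, (u : ℚ), 1, 0, 1],
    ?_, ?_, ?_, ?_, ?_⟩
  · intro i p hp
    obtain ⟨j, hj, rfl⟩ := hW p hp
    have hk : Ker (P j) Q := E_ker_P hj
    fin_cases i
    · exact hk.le
    · exact hk.t.le
    · show padicNorm (P j) (1 / (1 + 4 * Q.s ^ 4)) ≤ 1
      rw [padicNorm.div, padicNorm.one,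
        nm_one_add (nm_mul_lt nm_four_le (nm_pow_lt hk (by norm_num))), div_one]
    · show padicNorm (P j) (((u ^ 2 + 1 : ℤ) : ℚ) / Q.s) ≤ 1
      have h1 := hu (P j) (Finset.mem_image_of_mem _ (Finset.mem_range.2 hj))
      have h2 : ¬ (((P j : ℕ) ^ (M.natAbs + 1) : ℕ) : ℤ) ∣ M := by
        intro h
        have h3 : (P j : ℕ) ^ (M.natAbs + 1) ∣ M.natAbs := Int.natCast_dvd.1 h
        have h4 := Nat.le_of_dvd (Int.natAbs_pos.2 hM0) h3
        have h5 : M.natAbs + 1 < (P j : ℕ) ^ (M.natAbs + 1) := Nat.lt_pow_self (P j).2.one_lt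
        omega
      rw [padicNorm.dvd_iff_norm_le] at h1 h2
      have h3 : padicNorm (P j) (M : ℚ) ≤ padicNorm (P j) Q.s := by
        have h4 : (M : ℚ) = Q.s * Q.s.den := (Rat.mul_den_eq_num Q.s).symm
        rw [h4, padicNorm.mul]
        exact mul_le_of_le_one_right (nm_nonneg _) (padicNorm.of_nat _)
      have h5 : 0 < padicNorm (P j) Q.s :=
        lt_of_le_of_ne (nm_nonneg _) (Ne.symm (padicNorm.nonzero hs0))
      rw [padicNorm.div, div_le_one h5]
      exact le_trans h1 (le_trans (not_le.1 h2).le h3)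
    · exact nm_int u
    · show padicNorm (P j) 1 ≤ 1
      rw [padicNorm.one]
    · show padicNorm (P j) 0 ≤ 1
      rw [padicNorm.zero]; exact zero_le_one
    · show padicNorm (P j) 1 ≤ 1
      rw [padicNorm.one]
  · exact Q.h
  · show (1 + 4 * Q.s ^ 4) * (1 / (1 + 4 * Q.s ^ 4)) = 1
    rw [mul_one_div_cancel hden]
  · show Q.s * (((u ^ 2 + 1 : ℤ) : ℚ) / Q.s) = (u : ℚ) ^ 2 + 1 ^ 2
    rw [mul_div_cancel₀ _ hs0]
    push_cast; ring
  · show (0 : ℚ) * u + 1 * 1 = 1
    ring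

/-! ### Topology -/

theorem isClosed_U (F G : Finset Nat.Primes) : IsClosed (U F G) := by
  have h : ∀ (p : Nat.Primes) (b : Bool), IsClosed {W : Nat.Primes → Bool | W p = b} :=
    fun p b => isClosed_singleton.preimage (continuous_apply p)
  have e : U F G = (⋂ p ∈ F, {W : Nat.Primes → Bool | W p = true}) ∩
      ⋂ p ∈ G, {W : Nat.Primes → Bool | W p = false} := by
    ext W; simp [U]
  rw [e]
  exact (isClosed_biInter fun p _ => h p true).inter (isClosed_biInter fun p _ => h p false)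

theorem isOpen_cyl (G : Finset Nat.Primes) : IsOpen {W : Nat.Primes → Bool | ∀ p ∈ G, W p = false} := by
  have h : ∀ p : Nat.Primes, IsOpen {W : Nat.Primes → Bool | W p = false} :=
    fun p => (isOpen_discrete ({false} : Set Bool)).preimage
      (continuous_apply p : Continuous fun W : Nat.Primes → Bool => W p)
  have e : {W : Nat.Primes → Bool | ∀ p ∈ G, W p = false} =
      ⋂ p ∈ G, {W : Nat.Primes → Bool | W p = false} := by
    ext W; simp
  rw [e]
  exact isOpen_biInter_finset fun p _ => h p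

open Classical in
/-- the prime `q k` -/
noncomputable def qk (k : ℕ) : ℕ :=
  if h : ∃ q : ℕ, q.Prime ∧ q % 4 = 3 ∧ padicNorm q (E k).t < 1 then h.choose else 0

theorem qk_spec {k : ℕ} (h : ∃ q : ℕ, q.Prime ∧ q % 4 = 3 ∧ padicNorm q (E k).t < 1) :
    (qk k).Prime ∧ qk k % 4 = 3 ∧ padicNorm (qk k) (E k).t < 1 := by
  unfold qk
  rw [dif_pos h]
  exact h.choose_spec

theorem qk_ne {k l : ℕ} (hkl : k < l) {p : Nat.Primes} (h : qk k = p) : qk l ≠ p := by
  intro h'
  have h1 : ∃ q : ℕ, q.Prime ∧ q % 4 = 3 ∧ padicNorm q (E k).t < 1 := by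
    by_contra hcon
    have : qk k = 0 := by unfold qk; rw [dif_neg hcon]
    rw [this] at h
    exact p.2.ne_zero h.symm
  have h2 : ∃ q : ℕ, q.Prime ∧ q % 4 = 3 ∧ padicNorm q (E l).t < 1 := by
    by_contra hcon
    have : qk l = 0 := by unfold qk; rw [dif_neg hcon]
    rw [this] at h'
    exact p.2.ne_zero h'.symm
  obtain ⟨h3, h4, h5⟩ := qk_spec h1
  obtain ⟨h6, h7, h8⟩ := qk_spec h2
  rw [h] at h3 h4 h5
  rw [h'] at h6 h7 h8
  have h9 : Ker p (E l) := by
    apply E_ker_mono (k := k + 1) hkl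
    rw [E_succ]
    exact ker_of_t h4 h5
  rw [h9.t] at h8
  exact lt_irrefl _ h8

open Classical in
/-- the complement of `{P j : j}` -/
noncomputable def Winf : Nat.Primes → Bool := fun p => decide (∀ j, P j ≠ p)

open Classical in
/-- the complement of `{P j : j < k}` -/
noncomputable def W1 (k : ℕ) : Nat.Primes → Bool := fun p => decide (∀ j < k, P j ≠ p)

open Classical in
/-- the complement of `{P j : j < k} ∪ {q k}` -/
noncomputable def W2 (k : ℕ) : Nat.Primes → Bool :=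
  fun p => decide ((∀ j < k, P j ≠ p) ∧ qk k ≠ p)

theorem W1_tendsto : Filter.Tendsto W1 Filter.atTop (nhds Winf) := by
  rw [tendsto_pi_nhds]
  intro p
  apply tendsto_const_nhds.congr'
  by_cases h : ∃ j, P j = p
  · obtain ⟨j, hj⟩ := h
    filter_upwards [Filter.eventually_gt_atTop j] with k hk
    unfold Winf W1
    rw [decide_eq_decide]
    exact ⟨fun h' => absurd hj (h' j), fun h' => absurd hj (h' j hk)⟩
  · push Not at h
    apply Filter.Eventually.of_forall
    intro k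
    unfold Winf W1
    rw [decide_eq_decide]
    exact ⟨fun h' j _ => h' j, fun _ => h⟩

theorem W2_tendsto : Filter.Tendsto W2 Filter.atTop (nhds Winf) := by
  rw [tendsto_pi_nhds]
  intro p
  apply tendsto_const_nhds.congr'
  by_cases h : ∃ j, P j = p
  · obtain ⟨j, hj⟩ := h
    filter_upwards [Filter.eventually_gt_atTop j] with k hk
    unfold Winf W2
    rw [decide_eq_decide]
    exact ⟨fun h' => absurd hj (h' j), fun h' => absurd hj (h'.1 j hk)⟩
  · push Not at h
    have hev : ∀ᶠ k in Filter.atTop, qk k ≠ p := by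
      by_cases h2 : ∃ k, qk k = p
      · obtain ⟨k, hk⟩ := h2
        filter_upwards [Filter.eventually_gt_atTop k] with l hl
        exact qk_ne hl hk
      · push Not at h2
        exact Filter.Eventually.of_forall h2
    filter_upwards [hev] with k hk
    unfold Winf W2
    rw [decide_eq_decide]
    exact ⟨fun _ => ⟨fun j _ => h j, hk⟩, fun _ => h⟩

theorem W2_mem {k : ℕ} (hk : 2 ≤ k) (ht : (E k).t < 0) : W2 k ∈ C poly := by
  obtain ⟨l, rfl⟩ : ∃ l, k = l + 1 + 1 := ⟨k - 2, by omega⟩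
  have hq : ∃ q : ℕ, q.Prime ∧ q % 4 = 3 ∧ padicNorm q (E (l + 1 + 1)).t < 1 := by
    rw [E_succ (l + 1)] at ht ⊢
    exact exists_q (E_good l) ht
  obtain ⟨h1, h2, h3⟩ := qk_spec hq
  unfold C
  rw [mem_interior]
  refine ⟨{W | ∀ p ∈ insert (⟨qk (l + 1 + 1), h1⟩ : Nat.Primes)
    ((Finset.range (l + 1 + 1)).image P), W p = false}, ?_, isOpen_cyl _, ?_⟩
  · intro W hW
    apply no_sol (k := l + 1 + 1) (by omega) (q := ⟨qk (l + 1 + 1), h1⟩) h2 h3
    · intro j hj
      exact hW _ (Finset.mem_insert_of_mem (Finset.mem_image_of_mem _ (Finset.mem_range.2 hj)))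
    · exact hW _ (Finset.mem_insert_self _ _)
  · intro p hp
    unfold W2
    rw [decide_eq_false_iff_not]
    rintro ⟨h4, h5⟩
    rcases Finset.mem_insert.1 hp with h6 | h6
    · exact h5 (by rw [h6])
    · obtain ⟨j, hj, h7⟩ := Finset.mem_image.1 h6
      exact h4 j (Finset.mem_range.1 hj) h7

/-- `C poly` is not closed. -/
theorem not_isClosed : ¬ IsClosed (C poly) := by
  intro hcl
  have h1 : Winf ∈ closure (C poly) := by
    apply mem_closure_of_frequently_of_tendsto _ W2_tendsto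
    rw [Filter.frequently_atTop]
    intro K
    obtain ⟨k, hk, ht⟩ := E_neg (K + 2)
    exact ⟨k, by omega, W2_mem (by omega) ht⟩
  rw [hcl.closure_eq] at h1
  have h2 : Winf ∈ closure (A poly) := by
    apply mem_closure_of_tendsto W1_tendsto
    apply Filter.Eventually.of_forall
    intro k
    apply sol k
    intro p hp
    unfold W1 at hp
    rw [decide_eq_false_iff_not] at hp
    push Not at hp
    exact hp
  unfold C at h1
  rw [interior_compl] at h1
  exact h1 h2

/-- There is a polynomial `f` with integer coefficients in eight variables such that the interior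
`C f` of the set of subrings of `ℚ` in which `f` has no solution is not a finite union of basic open
sets. -/
theorem result : ∃ f : MvPolynomial (Fin 8) ℤ,
    ¬ ∃ S : Finset (Finset Nat.Primes × Finset Nat.Primes), C f = ⋃ x ∈ S, U x.1 x.2 := by
  refine ⟨poly, ?_⟩
  rintro ⟨S, hS⟩
  apply not_isClosed
  rw [hS]
  exact isClosed_biUnion_finset fun x _ => isClosed_U x.1 x.2

end Pool.Agent.Results.MP_d0a72d_lc.NotFiniteUnion
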